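import Pool.Agent.Q57.CX.Top

/-!
# Toroidal models of covers of products of projective spaces have finitely generated Cox rings

**The varieties.** Let `F i` be a form of degree `d i` in `n i + 1` variables whose zero set in the
projective `n i`-space is a smooth hypersurface, and let `H i` be the cyclic hypersurface
`w ^ (d i) = F i` in the projective `(n i + 1)`-space. Let `Y` be a quotient
`(H 1 × ... × H r) / G`, where `G` is any group of diagonal automorphisms
`w i ↦ ζ i * w i`, `ζ i ^ (d i) = 1`. Equivalently, the function field `K` of `Y` is generated by the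
affine coordinates `x i j / x i 0` of the product of the projective `n i`-spaces and by roots `z j`,
`z j ^ (m j) = ∏ i, (F i (x i) / x i 0 ^ (d i)) ^ (a j i)`, where `m j` divides `a j i * d i`. There is
no condition on the dimensions and the degrees, so `Y` can be rationally connected, Calabi-Yau, of
general type, or of any intermediate Kodaira dimension. The toroidal modifications `X` of `Y` are given
by the subdivisions of the positive orthant into rational polyhedral cones (`IsFan`: the maximal cones,
generated by vectors which are `Admissible`, the nonzero lattice points of the orthant).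

**The divisors.** `D 1, ..., D p` are toroidal `ℚ`-Cartier divisors on `X`: sums of multiples `β i t`
of the hyperplane classes of the factors and of the prime divisors of the boundary of `X`. The
coefficient of the pullback of `D i` at a prime divisor `P` over `X` (a divisorial place `P` of `K`) is
`coefficient F d x (c i) (β i) P = c i v + ∑ t, β i t * h t`, where `v` is the vector of the
multiplicities of the hypersurfaces along `P`, `h t` is minus the minimal order at `P` of the
homogeneous coordinates of the `t`-th factor, and `- c i v = ∑ k, u σ i k * v k` on the cone `σ`.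

**The theorem.** The multigraded ring `⨁ H⁰(X, ⌊∑ i, μ i D i⌋)`, the sum over all integers
`μ 1, ..., μ p`, positive or negative, is a finitely generated `ℂ`-algebra.

**The minimal model program.** Let `X` be `ℚ`-factorial, and choose toroidal divisors `D i` which
generate all toroidal divisors. If all `n i ≥ 3` then every divisor on `X` is, up to `ℚ`-linear
equivalence, toroidal (Lefschetz), so that the ring is a Cox ring of `X`; since it is finitely
generated, `X` is a Mori dream space, and by the theorem of Hu and Keel there is for every divisor `D`
on `X` a finite sequence of `D`-negative divisorial contractions and flips which ends with a variety on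
which `D` is nef (and semiample) or with a `D`-negative fibration. For `D = K_X + Δ` this is the
statement of the problem, for all log canonical pairs `(X, Δ)` with this `X`, with arbitrary, not only
toroidal, boundary `Δ`, whether or not `K_X + Δ` is pseudo-effective. Without the condition `n i ≥ 3`
the same holds for the pairs with toroidal boundary (and the toroidal divisors). (These remarks explain
the meaning of the theorem; they are not used and not proved here.) For general log canonical pairs
the finite generation of the log canonical ring and the termination of a minimal model program are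
open. The bound for the number of the flips on these varieties is the theorem of
`Pool.Agent.Results.MP_89a3f8_ag.TerminationOfFlips`; it does not give the existence of the flips and the
finite generation.

The library theorem `Pool.Agent.Q57.CX.main_cox` (`Pool/Agent/Q57/CX/Top.lean`) is used.
-/

set_option autoImplicit false

open FF MvPolynomial Pool.Agent.W602.GT

namespace Pool.Agent.Results.MP_a27c81_ag.FinitelyGeneratedCoxRing

/-- The form `F` has no singular zeros: its partial derivatives have no common zero but `0`. -/
def Smooth {n : ℕ} (F : MvPolynomial (Fin (n + 1)) ℂ) : Prop :=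
  ∀ x : Fin (n + 1) → ℂ, x ≠ 0 → ∃ l, eval x (pderiv l F) ≠ 0

section fans

variable {r R : ℕ}

/-- The multiplicities which satisfy the divisibility conditions. -/
def Admissible (m : Fin R → ℕ) (a : Fin R → Fin r → ℕ) (v : Fin r → ℕ) : Prop :=
  v ≠ 0 ∧ ∀ j, m j ∣ ∑ i, a j i * v i

/-- The vector `v` is in the cone which is generated by the vectors in `σ`. -/
def InCone (σ : Finset (Fin r → ℕ)) (v : Fin r → ℕ) : Prop :=
  ∃ w : (Fin r → ℕ) → ℚ, (∀ s, 0 ≤ w s) ∧ ∀ k, (v k : ℚ) = ∑ s ∈ σ, w s * s k

/-- `fan` is a finite set of cones, each generated by a finite set of admissible vectors which span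
the whole space, which cover all admissible vectors. -/
structure IsFan (m : Fin R → ℕ) (a : Fin R → Fin r → ℕ) (fan : Finset (Finset (Fin r → ℕ))) :
    Prop where
  adm : ∀ σ ∈ fan, ∀ s ∈ σ, Admissible m a s
  full : ∀ σ ∈ fan, ∀ f : Fin r → ℚ, ∃ q : (Fin r → ℕ) → ℚ, ∀ k, f k = ∑ s ∈ σ, q s * s k
  cover : ∀ v, Admissible m a v → ∃ σ ∈ fan, InCone σ v

end fans

section places

variable {r : ℕ} {n : Fin r → ℕ} {K : Type} [Field K] [Algebra ℂ K]

/-- The affine coordinates of the product of the projective spaces. -/
noncomputable def affine (x : ∀ i, Fin (n i + 1) → K) (b : (i : Fin r) × Fin (n i)) : K :=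
  x b.1 b.2.succ / x b.1 0

/-- The minimal order at `P` of the homogeneous coordinates `y`. -/
noncomputable def minimalOrder {n : ℕ} (y : Fin (n + 1) → K) (P : Place ℂ K) : ℤ :=
  Finset.univ.inf' Finset.univ_nonempty fun j => P.ord (y j)

/-- The multiplicities of the hypersurfaces `F i = 0` along the prime divisor `P`; the `x i j` are the
homogeneous coordinates of the `i`-th factor, which are divided by one of minimal order at `P`. -/
noncomputable def multiplicities (F : ∀ i, MvPolynomial (Fin (n i + 1)) ℂ) (d : Fin r → ℕ)
    (x : ∀ i, Fin (n i + 1) → K) (P : Place ℂ K) (i : Fin r) : ℕ :=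
  (P.ord (aeval (x i) (F i)) - d i * minimalOrder (x i) P).toNat

/-- The coefficient at the prime divisor `P` of the divisor with the function `c` of the
multiplicities and the degrees `β t`: it is `c v` plus `β t` times the coefficient at `P` of the
hyperplane class of the `t`-th factor, which is represented by the divisor with the coefficients
`- minimalOrder (x t) P` (its sections are the linear forms in the `x t j`). -/
noncomputable def coefficient (F : ∀ i, MvPolynomial (Fin (n i + 1)) ℂ) (d : Fin r → ℕ)
    (x : ∀ i, Fin (n i + 1) → K) (c : (Fin r → ℕ) → ℚ) (β : Fin r → ℤ) (P : Place ℂ K) : ℚ :=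
  c (multiplicities F d x P) - ∑ t, (β t : ℚ) * minimalOrder (x t) P

end places

section divisors

variable {K : Type} [Field K] [Algebra ℂ K] {p : ℕ} (N : ℕ) (δ : Fin p → Place ℂ K → ℚ)

/-- `f` is a section of `∑ i, μ i * D i`: its order at every prime divisor `P` over `X` (every
divisorial place `P` of `K`) is at least minus the coefficient `∑ i, μ i * δ i P` of the pullback of
`∑ i, μ i * D i`, or `f = 0`. -/
def IsSection (μ : Fin p → ℤ) (f : K) : Prop :=
  ∀ P : Place ℂ K, Divisorial N P → f = 0 ∨ - ∑ i, (μ i : ℚ) * δ i P ≤ P.ord f

/-- `B` is the ring of the sections of all integral combinations of the `D i`: the subalgebra of the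
Laurent polynomials `∑ μ, f μ * T ^ μ` over `K` (the group algebra of `ℤ ^ p`) for which `f μ` is a
section of `∑ i, μ i * D i`, for all `μ`. -/
def IsSectionRing (B : Subalgebra ℂ (AddMonoidAlgebra K (Fin p → ℤ))) : Prop :=
  ∀ f : AddMonoidAlgebra K (Fin p → ℤ), f ∈ B ↔ ∀ μ, IsSection N δ μ (f.coeff μ)

end divisors

/-- **The Cox ring is finitely generated.** Let `K` be the function field of an abelian cover `Y` of the
product of the projective `n i`-spaces which is branched along smooth hypersurfaces `F i = 0` of the
factors, `X` the toroidal modification of `Y` which is given by `fan`, and `D i`, `i < p`, toroidal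
`ℚ`-Cartier divisors on `X` with the degrees `β i t` and the coefficients `c i`. The multigraded ring of
the sections of all integral combinations (with positive and negative coefficients) of the `D i` is a
finitely generated algebra over `ℂ`. -/
theorem result (r N R p : ℕ) (n d : Fin r → ℕ) (hr : 1 ≤ r) (hn : ∀ i, 1 ≤ n i)
    (hd : ∀ i, 1 ≤ d i) (hN : N = ∑ i, n i)
    (F : ∀ i, MvPolynomial (Fin (n i + 1)) ℂ) (hF : ∀ i, (F i).IsHomogeneous (d i))
    (hs : ∀ i, Smooth (F i)) (m : Fin R → ℕ) (hm : ∀ j, 1 ≤ m j) (a : Fin R → Fin r → ℕ)
    (hdiv : ∀ j i, m j ∣ a j i * d i)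
    (K : Type) [Field K] [Algebra ℂ K] (x : ∀ i, Fin (n i + 1) → K) (hx0 : ∀ i, x i 0 ≠ 0)
    (hbas : IsTranscendenceBasis ℂ (affine x)) (z : Fin R → K)
    (hz : ∀ j, z j ^ m j = ∏ i, (aeval (x i) (F i) / x i 0 ^ d i) ^ a j i)
    (hgen : IntermediateField.adjoin ℂ (Set.range (affine x) ∪ Set.range z) = ⊤)
    (fan : Finset (Finset (Fin r → ℕ))) (hfan : IsFan m a fan)
    (c : Fin p → (Fin r → ℕ) → ℚ) (hc0 : ∀ i, c i 0 = 0) (β : Fin p → Fin r → ℤ)
    (u : Finset (Fin r → ℕ) → Fin p → Fin r → ℚ)
    (hlin : ∀ σ ∈ fan, ∀ i v, Admissible m a v → InCone σ v → - c i v = ∑ k, u σ i k * v k)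
    (δ : Fin p → Place ℂ K → ℚ) (hδ : ∀ i P, δ i P = coefficient F d x (c i) (β i) P) :
    ∃ B : Subalgebra ℂ (AddMonoidAlgebra K (Fin p → ℤ)), IsSectionRing N δ B ∧ B.FG :=
  ⟨Pool.Agent.Q57.CX.coxRing N δ, fun _ => Iff.rfl,
    Pool.Agent.Q57.CX.main_cox (N := N) hr hn hN hd hF hs hx0 hbas hm hdiv hz hgen (S := fan)
      ⟨hfan.adm, hfan.full, hfan.cover⟩ hc0 (u := u) hlin (β := β) hδ⟩

end Pool.Agent.Results.MP_a27c81_ag.FinitelyGeneratedCoxRing
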