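import Pool.Agent.U660.MD.Nef
import Pool.Agent.U189.ND.Defs
import Pool.Agent.U189.MG.Trm

/-!
# All minimal model programs terminate on the toroidal models of covers branched along normal crossing
# hypersurfaces

**The varieties.** Let `F k`, `k = 0, ..., n`, be forms of degrees `d k` in `n + 1` variables whose
zero sets in the projective `n`-space are smooth hypersurfaces with normal crossings, `Y` a normal
abelian cover of the projective space which is branched only along these hypersurfaces, and `X` the
toroidal modification of `Y` which is given by `fan` (see `Pool/Agent/U189/ND/Defs.lean`, where the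
definitions `NormalCrossings`, `Admissible`, `InCone`, `IsFan`, `affine`, `minimalOrder`,
`multiplicities` and `coefficient` are explained). `D 1, ..., D p` are toroidal `ℚ`-Cartier divisors on
`X`; the coefficients of their pullbacks at the prime divisors `P` over `X` are the `δ i P`.

If `n ≥ 3`, if every generator of a ray has at most `n - 1` positive coordinates (only strata of
positive dimension, which are irreducible, are modified) and if the `D i` generate the toroidal
divisors of a `ℚ`-factorial projective `X`, then all divisors on `X` are rational combinations of the
`D i` up to `ℚ`-linear equivalence (Lefschetz; this remark is not used and not proved here).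

**The models.** Let `X'` be a projective variety with a birational map `X --> X'` whose inverse contracts
no divisor, on which the images of the `D i` are `ℚ`-Cartier and some combination of them is ample. The
coefficients of the pullbacks of the images of the `D i` at the prime divisors `P` over `X` are the
`δ' i P`. The sections of the integral combinations on `X` are sections of the images. Suppose that the
prime divisors `E` on `X` which are contracted are combinations of the `D i`. Then for a combination
`lam = ∑ t E * E + L`, where all `t E > 0` and `L` is the pullback to `X` of an ample combination on `X'`,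
the rational combinations near `lam` are semiample on `X'` and their multiples have the same sections
on `X` and on `X'`. This is `IsModel`. If `X` is `ℚ`-factorial and the `D i` generate the divisor classes
(up to `ℚ`-linear equivalence), all `ℚ`-factorial projective varieties `X'` with a birational map
`X --> X'` whose inverse contracts no divisor are models: the small modifications of `X` and their
divisorial contractions. They are in general not toroidal modifications of `Y`.

**The theorem.** There is a number `B` such that among any `B + 1` models there are two with the same
coefficients (which are isomorphic: the ample combinations and their sections are the same; so there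
are at most `B` models of `X`), and such that every sequence of steps of minimal model programs for every
real combination `∑ i, w i * D i` has less than `B` steps. Here a step from `X j` to `X (j + 1)`, a flip or a
divisorial contraction for the combination, is described by the negativity lemma: the coefficients of
the pullbacks of the images of `∑ i, w i * D i` do not increase, and the coefficient at some prime
divisor becomes smaller.

For the log canonical pairs `(X, Δ)` with `K_X + Δ = ∑ i, w i * D i` (real coefficients; all pairs on the
`X` described above): every sequence of divisorial contractions and flips for `(X, Δ)`, in any order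
and with any choices, is finite, with less than `B` steps. Since the contractions and flips exist
for log canonical pairs (Birkar, Hacon-Xu) every such sequence can be continued until `K + Δ` is nef or
until there is a Mori fibre space. There is no condition on `K_X + Δ` and on the bigness of `Δ`. For the flips
alone (`X --> X'` small) see `MP_89a3f8_ag.NormalCrossingCovers`; the existence of good log minimal models
(without a sequence of steps, and for all real `w`) is the subject of
`MP_c1e25c_ag.NormalCrossingModels`.

**Proof.** New is the finite generation of the Cox ring of `X` (`Pool/Agent/U189/NF`), and the deduction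
of the bound from it (`Pool/Agent/U189/MG`): the coefficients on a model are determined by the set of
the cones, generated by degrees of generators of the Cox ring, which contain the combination `lam`.
-/

set_option autoImplicit false

open FF MvPolynomial Pool.Agent.W602.GT

namespace Pool.Agent.Results.MP_a27c81_ag.NormalCrossingPrograms

open Pool.Agent.Results.MP_89a3f8_ag.TerminationOfFlips
  (IsSection BasePointFree Semiample)
open Pool.Agent.U189.ND

section defs

variable {K : Type} [Field K] [Algebra ℂ K] {p : ℕ} (N : ℕ) (δ : Fin p → Place ℂ K → ℚ)

/-- The coefficients `δ'` are those of the images of the `D i` on a model `X'` of `X` on which they are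
`ℚ`-Cartier and some rational combination of them is ample: all sections of integral combinations on `X`
are sections on `X'`; and for some combination `lam` all rational combinations near `lam` are
semiample on `X'`, and their integral multiples have the same sections on `X` and on `X'`. -/
def IsModel (δ' : Fin p → Place ℂ K → ℚ) : Prop :=
  (∀ (μ : Fin p → ℤ) (f : K), IsSection N δ μ f → IsSection N δ' μ f) ∧
    ∃ (lam : Fin p → ℚ) (ε : ℚ), 0 < ε ∧ ∀ μ : Fin p → ℚ, (∀ i, |μ i - lam i| ≤ ε) →
      Semiample N δ' μ ∧ ∀ (k : ℕ) (ν : Fin p → ℤ), (∀ i, (k : ℚ) * μ i = ν i) →
        ∀ f : K, IsSection N δ' ν f → IsSection N δ ν f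

/-- The coefficients of the real combination `∑ i, w i * D i` do not increase, and some coefficient
becomes smaller: this holds if the model with the coefficients `δ''` is obtained by a divisorial
contraction or a flip for this combination from the one with the coefficients `δ'` (negativity
lemma). -/
def IsStep (w : Fin p → ℝ) (δ' δ'' : Fin p → Place ℂ K → ℚ) : Prop :=
  (∀ P : Place ℂ K, Divisorial N P →
    ∑ i, w i * (δ'' i P : ℝ) ≤ ∑ i, w i * (δ' i P : ℝ)) ∧
  ∃ P : Place ℂ K, Divisorial N P ∧
    ∑ i, w i * (δ'' i P : ℝ) < ∑ i, w i * (δ' i P : ℝ)

end defs

/-- **All minimal model programs terminate.** Let `K` be the function field of an abelian cover `Y` of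
the projective `n`-space which is branched along `n + 1` hypersurfaces `F k = 0` with normal crossings,
`X` the toroidal modification of `Y` which is given by `fan`, and `D i`, `i < p`, toroidal `ℚ`-Cartier
divisors on `X` with the degrees `β i` and the coefficients `c i`. There is a number `B` such that
(1) among any `B + 1` models of `X` there are two with the same coefficients of all the images of the
`D i` at all prime divisors over `X`;
(2) every sequence of steps (flips and divisorial contractions) for every real combination of the `D i`
between models of `X` has less than `B` steps. -/
theorem result (n R p : ℕ) (hn : 1 ≤ n) (d : Fin (n + 1) → ℕ) (hd : ∀ k, 1 ≤ d k)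
    (F : Fin (n + 1) → MvPolynomial (Fin (n + 1)) ℂ) (hF : ∀ k, (F k).IsHomogeneous (d k))
    (hs : NormalCrossings F) (m : Fin R → ℕ) (hm : ∀ j, 1 ≤ m j) (a : Fin R → Fin (n + 1) → ℕ)
    (hdiv : ∀ j, m j ∣ ∑ k, a j k * d k)
    (K : Type) [Field K] [Algebra ℂ K] (x : Fin (n + 1) → K) (hx0 : x 0 ≠ 0)
    (hbas : IsTranscendenceBasis ℂ (affine x)) (z : Fin R → K)
    (hz : ∀ j, z j ^ m j = ∏ k, (aeval x (F k) / x 0 ^ d k) ^ a j k)
    (hgen : IntermediateField.adjoin ℂ (Set.range (affine x) ∪ Set.range z) = ⊤)
    (fan : Finset (Finset (Fin (n + 1) → ℕ))) (hfan : IsFan m a fan)
    (c : Fin p → (Fin (n + 1) → ℕ) → ℚ) (hc0 : ∀ i, c i 0 = 0) (β : Fin p → ℤ)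
    (u : Finset (Fin (n + 1) → ℕ) → Fin p → Fin (n + 1) → ℚ)
    (hlin : ∀ σ ∈ fan, ∀ i v, Admissible m a v → InCone σ v → - c i v = ∑ k, u σ i k * v k)
    (δ : Fin p → Place ℂ K → ℚ) (hδ : ∀ i P, δ i P = coefficient F d x (c i) (β i) P) :
    ∃ B : ℕ,
      (∀ δs : Fin (B + 1) → Fin p → Place ℂ K → ℚ, (∀ j, IsModel n δ (δs j)) →
        ∃ j j' : Fin (B + 1), j < j' ∧ ∀ P : Place ℂ K, Divisorial n P →
          ∀ i, δs j i P = δs j' i P) ∧
      ∀ (w : Fin p → ℝ) (L : ℕ) (δs : ℕ → Fin p → Place ℂ K → ℚ),
        (∀ j ≤ L, IsModel n δ (δs j)) →
        (∀ j < L, IsStep n w (δs j) (δs (j + 1))) → L < B := by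
  have hFG := cox_nc n R p hn d hd F hF hs m hm a hdiv K x hx0 hbas z hz hgen fan hfan c hc0 β u
    hlin δ hδ
  obtain ⟨B, h1, h2⟩ := Pool.Agent.U189.MG.term_mdl hFG
  have hm : ∀ δ' : Fin p → Place ℂ K → ℚ, IsModel n δ δ' →
      ∃ lam : Fin p → ℚ, Pool.Agent.U189.MG.Mdl n δ δ' lam := by
    rintro δ' ⟨h, lam, h'⟩
    exact ⟨lam, h, h'⟩
  exact ⟨B, fun δs h => h1 δs fun j => hm _ (h j), fun w L δs h hf => h2 w L δs
    (fun j hj => hm _ (h j hj)) hf⟩

end Pool.Agent.Results.MP_a27c81_ag.NormalCrossingPrograms
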