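import Pool.Agent.U660.MD.Nef
import Pool.Agent.Q57.CX.Top
import Pool.Agent.U189.MG.Trm

/-!
# All minimal model programs terminate on the toroidal models of covers of products of projective spaces

**The varieties.** Let `F i` be a form of degree `d i` in `n i + 1` variables whose zero set in the
projective `n i`-space is a smooth hypersurface, and let `H i` be the cyclic hypersurface
`w ^ (d i) = F i` in the projective `(n i + 1)`-space. Let `Y` be a quotient `(H 1 × ... × H r) / G`, where
`G` is any group of diagonal automorphisms `w i ↦ ζ i * w i`, `ζ i ^ (d i) = 1`: an abelian cover of the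
product of the projective `n i`-spaces which is branched along the hypersurfaces `F i = 0` of the
factors. Its function field `K` is generated by the affine coordinates `x i j / x i 0` and by roots `z j`,
`z j ^ (m j) = ∏ i, (F i (x i) / x i 0 ^ (d i)) ^ (a j i)`, where `m j` divides `a j i * d i`. `X` is the
toroidal modification of `Y` which is given by `fan`, and `D 1, ..., D p` are toroidal `ℚ`-Cartier divisors
on `X`; the coefficients of their pullbacks at the prime divisors `P` over `X` are the `δ i P`. See
`Pool.Agent.Results.MP_89a3f8_ag.TerminationOfFlips`, whose definitions (`Smooth`, `Admissible`,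
`InCone`, `IsFan`, `affine`, `minimalOrder`, `multiplicities`, `coefficient`, `IsSection`,
`BasePointFree`, `Semiample`, `IsSmallModification`) are used here. If all `n i ≥ 3` and if the `D i`
generate the toroidal divisors of a `ℚ`-factorial `X` then all divisors on `X` are rational combinations of
the `D i` up to `ℚ`-linear equivalence (Lefschetz; this remark is not used and not proved here). There is
no condition on the dimensions and the degrees.

**The models.** Let `X'` be a projective variety with a birational map `X --> X'` whose inverse contracts
no divisor, on which the images of the `D i` are `ℚ`-Cartier and some combination of them is ample. The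
coefficients of the pullbacks of the images of the `D i` at the prime divisors `P` over `X` are the
`δ' i P`. The sections of the integral combinations on `X` are sections of the images. Suppose that the
prime divisors `E` on `X` which are contracted are combinations of the `D i`. Then for a combination
`lam = ∑ t E * E + L`, where all `t E > 0` and `L` is the pullback to `X` of an ample combination on `X'`,
the rational combinations near `lam` are semiample on `X'` and their multiples have the same sections
on `X` and on `X'`. This is `IsModel`. If `X` is `ℚ`-factorial and the `D i` generate the divisor classes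
(up to `ℚ`-linear equivalence), all `ℚ`-factorial projective varieties `X'` with a birational map
`X --> X'` whose inverse contracts no divisor are models: the small modifications of `X` and their
divisorial contractions. They are in general not toroidal modifications of `Y`.

**The theorem.** There is a number `B` such that among any `B + 1` models there are two with the same
coefficients (which are isomorphic: the ample combinations and their sections are the same; so there
are at most `B` models of `X`), and such that every sequence of steps of minimal model programs for every
real combination `∑ i, w i * D i` has less than `B` steps. Here a step from `X j` to `X (j + 1)`, a flip or a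
divisorial contraction for the combination, is described by the negativity lemma: the coefficients of
the pullbacks of the images of `∑ i, w i * D i` do not increase, and the coefficient at some prime
divisor becomes smaller.

For the log canonical pairs `(X, Δ)` with `K_X + Δ = ∑ i, w i * D i` (real coefficients; all pairs on the
`ℚ`-factorial `X` with `n i ≥ 3`): every sequence of divisorial contractions and flips for `(X, Δ)`, in any
order and with any choices, is finite, with less than `B` steps. Since the contractions and flips exist
for log canonical pairs (Birkar, Hacon-Xu) every such sequence can be continued until `K + Δ` is nef or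
until there is a Mori fibre space. There is no condition on `K_X + Δ` and on the bigness of `Δ`.

**Relation to the other results.** `MP_a27c81_ag.FinitelyGeneratedCoxRing` gives the finite generation of
the Cox ring of the same `X` (`Q57.CX.main_cox`), and `MP_89a3f8_ag.TerminationOfFlips` the termination of the
flips. Here divisorial contractions are allowed, before, between and after the flips, so that the
statement is about complete minimal model programs. `MP_a27c81_ag.NormalCrossingPrograms` is the same
statement for another class of varieties `Y`: covers of one projective space which are branched along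
several hypersurfaces with normal crossings.
-/

set_option autoImplicit false

open FF MvPolynomial Pool.Agent.W602.GT

namespace Pool.Agent.Results.MP_a27c81_ag.ProductCoverPrograms

open Pool.Agent.Results.MP_89a3f8_ag.TerminationOfFlips

section defs

variable {K : Type} [Field K] [Algebra ℂ K] {p : ℕ} (N : ℕ) (δ : Fin p → Place ℂ K → ℚ)

/-- The coefficients `δ'` are those of the images of the `D i` on a model `X'` of `X` on which they are
`ℚ`-Cartier and some rational combination of them is ample: all sections of integral combinations on `X`
are sections on `X'`; and for some combination `lam` all rational combinations near `lam` are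
semiample on `X'`, and their integral multiples have the same sections on `X` and on `X'`. -/
def IsModel (δ' : Fin p → Place ℂ K → ℚ) : Prop :=
  (∀ (μ : Fin p → ℤ) (f : K), IsSection N δ μ f → IsSection N δ' μ f) ∧
    ∃ (lam : Fin p → ℚ) (ε : ℚ), 0 < ε ∧ ∀ μ : Fin p → ℚ, (∀ i, |μ i - lam i| ≤ ε) →
      Semiample N δ' μ ∧ ∀ (k : ℕ) (ν : Fin p → ℤ), (∀ i, (k : ℚ) * μ i = ν i) →
        ∀ f : K, IsSection N δ' ν f → IsSection N δ ν f

/-- The coefficients of the real combination `∑ i, w i * D i` do not increase, and some coefficient
becomes smaller: this holds if the model with the coefficients `δ''` is obtained by a divisorial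
contraction or a flip for this combination from the one with the coefficients `δ'` (negativity
lemma). -/
def IsStep (w : Fin p → ℝ) (δ' δ'' : Fin p → Place ℂ K → ℚ) : Prop :=
  (∀ P : Place ℂ K, Divisorial N P →
    ∑ i, w i * (δ'' i P : ℝ) ≤ ∑ i, w i * (δ' i P : ℝ)) ∧
  ∃ P : Place ℂ K, Divisorial N P ∧
    ∑ i, w i * (δ'' i P : ℝ) < ∑ i, w i * (δ' i P : ℝ)

end defs

/-- **All minimal model programs terminate.** Let `K` be the function
field of an abelian cover `Y` of the product of the projective `n i`-spaces which is branched along smooth
hypersurfaces `F i = 0` of the factors, `X` the toroidal modification of `Y` which is given by `fan`, and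
`D i`, `i < p`, toroidal `ℚ`-Cartier divisors on `X` with the degrees `β i t` and the coefficients `c i`.
There is a number `B` such that
(1) among any `B + 1` models of `X` there are two with the same coefficients of all the images of the
`D i` at all prime divisors over `X`;
(2) every sequence of steps (flips and divisorial contractions) for every real combination of the `D i`
between models of `X` has less than `B` steps. -/
theorem result (r N R p : ℕ) (n d : Fin r → ℕ) (hr : 1 ≤ r) (hn : ∀ i, 1 ≤ n i)
    (hd : ∀ i, 1 ≤ d i) (hN : N = ∑ i, n i)
    (F : ∀ i, MvPolynomial (Fin (n i + 1)) ℂ) (hF : ∀ i, (F i).IsHomogeneous (d i))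
    (hs : ∀ i, Smooth (F i)) (m : Fin R → ℕ) (hm : ∀ j, 1 ≤ m j) (a : Fin R → Fin r → ℕ)
    (hdiv : ∀ j i, m j ∣ a j i * d i)
    (K : Type) [Field K] [Algebra ℂ K] (x : ∀ i, Fin (n i + 1) → K) (hx0 : ∀ i, x i 0 ≠ 0)
    (hbas : IsTranscendenceBasis ℂ (affine x)) (z : Fin R → K)
    (hz : ∀ j, z j ^ m j = ∏ i, (aeval (x i) (F i) / x i 0 ^ d i) ^ a j i)
    (hgen : IntermediateField.adjoin ℂ (Set.range (affine x) ∪ Set.range z) = ⊤)
    (fan : Finset (Finset (Fin r → ℕ))) (hfan : IsFan m a fan)
    (c : Fin p → (Fin r → ℕ) → ℚ) (hc0 : ∀ i, c i 0 = 0) (β : Fin p → Fin r → ℤ)
    (u : Finset (Fin r → ℕ) → Fin p → Fin r → ℚ)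
    (hlin : ∀ σ ∈ fan, ∀ i v, Admissible m a v → InCone σ v → - c i v = ∑ k, u σ i k * v k)
    (δ : Fin p → Place ℂ K → ℚ) (hδ : ∀ i P, δ i P = coefficient F d x (c i) (β i) P) :
    ∃ B : ℕ,
      (∀ δs : Fin (B + 1) → Fin p → Place ℂ K → ℚ, (∀ j, IsModel N δ (δs j)) →
        ∃ j j' : Fin (B + 1), j < j' ∧ ∀ P : Place ℂ K, Divisorial N P →
          ∀ i, δs j i P = δs j' i P) ∧
      ∀ (w : Fin p → ℝ) (L : ℕ) (δs : ℕ → Fin p → Place ℂ K → ℚ),
        (∀ j ≤ L, IsModel N δ (δs j)) →
        (∀ j < L, IsStep N w (δs j) (δs (j + 1))) → L < B := by
  have hFG := Pool.Agent.Q57.CX.main_cox (N := N) hr hn hN hd hF hs hx0 hbas hm hdiv hz hgen (S := fan)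
      ⟨hfan.adm, hfan.full, hfan.cover⟩ hc0 (u := u) hlin (β := β) hδ
  obtain ⟨B, h1, h2⟩ := Pool.Agent.U189.MG.term_mdl hFG
  have hm : ∀ δ' : Fin p → Place ℂ K → ℚ, IsModel N δ δ' →
      ∃ lam : Fin p → ℚ, Pool.Agent.U189.MG.Mdl N δ δ' lam := by
    rintro δ' ⟨h, lam, h'⟩
    exact ⟨lam, h, h'⟩
  exact ⟨B, fun δs h => h1 δs fun j => hm _ (h j), fun w L δs h hf => h2 w L δs
    (fun j hj => hm _ (h j hj)) hf⟩

end Pool.Agent.Results.MP_a27c81_ag.ProductCoverPrograms
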