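import Pool.Agent.U660.MD.Nef
import Pool.Agent.Q57.CX.Top
import Pool.Agent.U189.MG.Scm

/-!
# The minimal model program with scaling on the covers of products of projective spaces

**The varieties.** Let `F i` be a form of degree `d i` in `n i + 1` variables whose zero set in the
projective `n i`-space is a smooth hypersurface, and let `H i` be the cyclic hypersurface
`w ^ (d i) = F i` in the projective `(n i + 1)`-space. Let `Y` be a quotient `(H 1 × ... × H r) / G`, where
`G` is any group of diagonal automorphisms `w i ↦ ζ i * w i`, `ζ i ^ (d i) = 1`: an abelian cover of the
product of the projective `n i`-spaces which is branched along the hypersurfaces `F i = 0` of the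
factors. Its function field `K` is generated by the affine coordinates `x i j / x i 0` and by roots `z j`,
`z j ^ (m j) = ∏ i, (F i (x i) / x i 0 ^ (d i)) ^ (a j i)`, where `m j` divides `a j i * d i`. `X` is the
toroidal modification of `Y` which is given by `fan`, and `D 1, ..., D p` are toroidal `ℚ`-Cartier divisors
on `X`; the coefficients of their pullbacks at the prime divisors `P` over `X` are the `δ i P`. See
`Pool.Agent.Results.MP_89a3f8_ag.TerminationOfFlips`, whose definitions (`Smooth`, `Admissible`,
`InCone`, `IsFan`, `affine`, `minimalOrder`, `multiplicities`, `coefficient`, `IsSection`,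
`BasePointFree`, `Semiample`, `IsSmallModification`) are used here. If all `n i ≥ 3` and if the `D i`
generate the toroidal divisors of a `ℚ`-factorial `X` then all divisors on `X` are rational combinations of
the `D i` up to `ℚ`-linear equivalence (Lefschetz; this remark is not used and not proved here). There is
no condition on the dimensions and the degrees.

**The models.** Let `X'` be a projective variety with a birational map `X --> X'` whose inverse contracts
no divisor, on which the images of the `D i` are `ℚ`-Cartier and some combination of them is ample. The
coefficients of the pullbacks of the images of the `D i` at the prime divisors `P` over `X` are the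
`δ' i P`. The sections of the integral combinations on `X` are sections of the images. Suppose that the
prime divisors `E` on `X` which are contracted are combinations of the `D i`. Then for a combination
`x = ∑ t E * E + L`, where all `t E > 0` and `L` is the pullback to `X` of an ample combination on `X'`,
the rational combinations near `x` are semiample on `X'` and their multiples have the same sections
on `X` and on `X'`. This is `IsAmpleModel`: the class `x` is ample on `X'`. For `X' = X` (or a small
modification of `X`) the condition says that `x` is ample. If `X` is `ℚ`-factorial and the `D i` generate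
the divisor classes, all birational contractions `X'` of `X` with `ℚ`-factorial `X'` are models.

**The minimal model program with scaling.** Let `X'` be a model, for instance `X' = X`, and let
`(X', Δ')` be a log canonical pair whose class `K_X' + Δ'` is the image of a real combination
`w = ∑ i, w i * D i`. For an ample class `α` on `X'` the `w`-program with scaling of `α` is the sequence of
the ample models of the classes `(1 - t) α + t w`, `0 ≤ t < 1`. The theorem says that it exists and is
finite, for all real `w` and all sufficiently general ample `α` (near every ample class `lam` there is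
such an `α`): there are numbers `0 = s 0 < s 1 < ... < s (k + 1) ≤ 1` and models `X 0 = X', X 1, ..., X k` such
that `(1 - t) α + t w` is ample on `X j` for `s j < t < s (j + 1)`. At `t = s j`, `1 ≤ j ≤ k`, the class
`θ = (1 - t) α + t w` is a limit of ample classes on `X (j - 1)` and on `X j` (and semiample, by the
rationality of the cones); it defines contractions `X (j - 1) → Z ← X j`, and `θ - η w` is ample on
`X (j - 1)`, `θ + η w` is ample on `X j` for small `η > 0` (up to positive multiples these are the classes
`(1 - t') α + t' w` with `t' < t`, `t' > t`): so `- w` is ample over `Z` on `X (j - 1)` and `w` is ample over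
`Z` on `X j`. This is a divisorial contraction or a flip for `w` (of a face of the cone of curves; or an
isomorphism). For all prime divisors `P` over `X`: either all `D i` have the same coefficients at `P` on
`X (j - 1)` and on `X j`, or the coefficient of `w` becomes smaller (the log discrepancy of `P` increases).
The last model `X k` has one of the following properties.
1. `s (k + 1) = 1`, and `w` is in a rational polyhedral cone which is spanned by combinations without
base points on `X k` and with the same sections as on `X`. So `w` is nef and semiample on `X k`: a good
log minimal model.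
2. `s (k + 1) < 1`, and `w` and all `(1 - t) α + t w` with `t > s (k + 1)` are not pseudo-effective. Then
`θ = (1 - t) α + t w`, `t = s (k + 1)`, is semiample on `X k` (it is in a cone as in 1) and not big, because
the multiples of nearby combinations have no sections. It defines `X k → Z` with `dim Z < dim X`, and `- w`
is ample over `Z`: a Mori fibre space for `w`.

For all log canonical pairs `(X, Δ)` with `K_X + Δ` in the real span of the `D i` this gives a finite
program which ends in a good minimal model or in a Mori fibre space, as Question Q1 asks.

**Relation to the other results.** `MP_c1e25c_ag.NormalCrossingScaling` is the same statement for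
another class of varieties `Y`: covers of one projective space which are branched along several
hypersurfaces with normal crossings. `MP_a27c81_ag.FinitelyGeneratedCoxRing` (starting library) gives the
Cox ring, `MP_a27c81_ag.ProductCoverPrograms` the termination of every sequence of steps (without the
existence of the steps), `MP_c1e25c_ag.ProductCoverModels` finitely many good minimal models (not as the
result of a program). New here: the existence of the steps, the program with scaling from any model
`X'`, its last model, and the classes which are not pseudo-effective (Mori fibre spaces).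

**Proof.** The Cox ring of `X` is finitely generated (`Q57.CX.main_cox`). Outside of finitely many
rational hyperplanes the asymptotic orders at all prime divisors over `X` are linear, and define the
coefficients on a model. An ample class `α` outside of these hyperplanes is connected with `w` by a
segment which meets each of them at most once before `w`. The comparison of the coefficients follows
from the convexity of the asymptotic orders (`Pool/Agent/U189/MG/Chm.lean`, `Scl.lean`, `Scm.lean`).
-/

set_option autoImplicit false

open FF MvPolynomial Pool.Agent.W602.GT

namespace Pool.Agent.Results.MP_a27c81_ag.ProductCoverScaling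

open Pool.Agent.Results.MP_89a3f8_ag.TerminationOfFlips
open Pool.Agent.U660.MD (coneOf)

section defs

variable {K : Type} [Field K] [Algebra ℂ K] {p : ℕ} (N : ℕ) (δ : Fin p → Place ℂ K → ℚ)

/-- The coefficients `δ'` are those of the images of the `D i` on a model `X'` of `X` on which the real
combination `x` is ample: all sections of integral combinations on `X` are sections on `X'`; and all
rational combinations `μ` near `x` are semiample on `X'`, and their integral multiples have the same
sections on `X` and on `X'`. -/
def IsAmpleModel (δ' : Fin p → Place ℂ K → ℚ) (x : Fin p → ℝ) : Prop :=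
  (∀ (μ : Fin p → ℤ) (f : K), IsSection N δ μ f → IsSection N δ' μ f) ∧
    ∃ ε : ℝ, 0 < ε ∧ ∀ μ : Fin p → ℚ, (∀ i, |(μ i : ℝ) - x i| ≤ ε) →
      Semiample N δ' μ ∧ ∀ (k : ℕ) (ν : Fin p → ℤ), (∀ i, (k : ℚ) * μ i = ν i) →
        ∀ f : K, IsSection N δ' ν f → IsSection N δ ν f

/-- The real combination `∑ i, w i * D i` is pseudo-effective: it is a limit of rational combinations
which have a positive integral multiple with a nonzero section. (If some combination of the `D i` is
ample, this is the usual notion.) -/
def IsPseudoeffective (w : Fin p → ℝ) : Prop :=
  ∀ ε : ℝ, 0 < ε → ∃ μ : Fin p → ℚ, (∀ i, |(μ i : ℝ) - w i| ≤ ε) ∧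
    ∃ k : ℕ, 1 ≤ k ∧ ∃ ν : Fin p → ℤ, (∀ i, (k : ℚ) * μ i = ν i) ∧
      ∃ s : K, s ≠ 0 ∧ IsSection N δ ν s

/-- The point `(1 - t) α + t w` of the segment from the rational combination `α` to `w`. -/
def between (α : Fin p → ℚ) (w : Fin p → ℝ) (t : ℝ) : Fin p → ℝ :=
  fun i => (1 - t) * α i + t * w i

end defs

/-- **The minimal model program with scaling.** Let `K` be the function
field of an abelian cover `Y` of the product of the projective `n i`-spaces which is branched along smooth
hypersurfaces `F i = 0` of the factors, `X` the toroidal modification of `Y` which is given by `fan`, and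
`D i`, `i < p`, toroidal `ℚ`-Cartier divisors on `X` with the degrees `β i t` and the coefficients `c i`. Let the model
`X'` of `X` (with the coefficients `δ'`) have the ample class `lam`, let `w` be a real combination and
`ε > 0`. There is an ample class `α` at distance at most `ε` from `lam`, and there are numbers
`0 = s 0 < ... < s (k + 1) ≤ 1` and models `X 0 = X', ..., X k` of `X` (with the coefficients `δs j`) such that:
`(1 - t) α + t w` is ample on `X j` for `s j < t < s (j + 1)`; for `j < j'` and every prime divisor `P` over `X`
the coefficients of all `D i` at `P` are the same on `X j` and `X j'`, or the coefficient of `w` at `P` is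
smaller on `X j'`; the class `(1 - t) α + t w` for `t = s (k + 1)` is in a cone which is spanned by finitely
many integral combinations without base points on `X k`, whose integral points have the same sections
on `X` and on `X k`; and either `s (k + 1) = 1` (so this class is `w`), or `s (k + 1) < 1` and
`(1 - t) α + t w` is not pseudo-effective for all `t > s (k + 1)`. -/
theorem result (r N R p : ℕ) (n d : Fin r → ℕ) (hr : 1 ≤ r) (hn : ∀ i, 1 ≤ n i)
    (hd : ∀ i, 1 ≤ d i) (hN : N = ∑ i, n i)
    (F : ∀ i, MvPolynomial (Fin (n i + 1)) ℂ) (hF : ∀ i, (F i).IsHomogeneous (d i))
    (hs : ∀ i, Smooth (F i)) (m : Fin R → ℕ) (hm : ∀ j, 1 ≤ m j) (a : Fin R → Fin r → ℕ)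
    (hdiv : ∀ j i, m j ∣ a j i * d i)
    (K : Type) [Field K] [Algebra ℂ K] (x : ∀ i, Fin (n i + 1) → K) (hx0 : ∀ i, x i 0 ≠ 0)
    (hbas : IsTranscendenceBasis ℂ (affine x)) (z : Fin R → K)
    (hz : ∀ j, z j ^ m j = ∏ i, (aeval (x i) (F i) / x i 0 ^ d i) ^ a j i)
    (hgen : IntermediateField.adjoin ℂ (Set.range (affine x) ∪ Set.range z) = ⊤)
    (fan : Finset (Finset (Fin r → ℕ))) (hfan : IsFan m a fan)
    (c : Fin p → (Fin r → ℕ) → ℚ) (hc0 : ∀ i, c i 0 = 0) (β : Fin p → Fin r → ℤ)
    (u : Finset (Fin r → ℕ) → Fin p → Fin r → ℚ)
    (hlin : ∀ σ ∈ fan, ∀ i v, Admissible m a v → InCone σ v → - c i v = ∑ k, u σ i k * v k)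
    (δ : Fin p → Place ℂ K → ℚ) (hδ : ∀ i P, δ i P = coefficient F d x (c i) (β i) P)
    (δ' : Fin p → Place ℂ K → ℚ) (lam : Fin p → ℚ)
    (hX' : IsAmpleModel N δ δ' fun i => (lam i : ℝ)) (w : Fin p → ℝ) (ε : ℝ) (hε : 0 < ε) :
    ∃ α : Fin p → ℚ, (∀ i, |(α i : ℝ) - lam i| ≤ ε) ∧
      ∃ (k : ℕ) (s : Fin (k + 2) → ℝ) (δs : Fin (k + 1) → Fin p → Place ℂ K → ℚ),
        StrictMono s ∧ s 0 = 0 ∧ s (Fin.last _) ≤ 1 ∧
        (∀ P : Place ℂ K, Divisorial N P → ∀ i, δs 0 i P = δ' i P) ∧
        (∀ (j : Fin (k + 1)) (t : ℝ), s j.castSucc < t → t < s j.succ →
          IsAmpleModel N δ (δs j) (between α w t)) ∧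
        (∀ j j' : Fin (k + 1), j < j' → ∀ P : Place ℂ K, Divisorial N P →
          (∀ i, δs j' i P = δs j i P) ∨
            ∑ i, w i * (δs j' i P : ℝ) < ∑ i, w i * (δs j i P : ℝ)) ∧
        (∃ (B : ℕ) (h : Fin B → Fin p → ℤ),
          (∀ b, BasePointFree N (δs (Fin.last _)) (h b)) ∧
          (∀ ν : Fin p → ℤ, (fun i => (ν i : ℝ)) ∈ coneOf h → ∀ f : K,
            IsSection N (δs (Fin.last _)) ν f ↔ IsSection N δ ν f) ∧
          between α w (s (Fin.last _)) ∈ coneOf h) ∧
        (s (Fin.last _) = 1 ∨ s (Fin.last _) < 1 ∧ ∀ t, s (Fin.last _) < t →
          ¬ IsPseudoeffective N δ (between α w t)) :=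
  Pool.Agent.U189.MG.scaling (Pool.Agent.Q57.CX.main_cox (N := N) hr hn hN hd hF hs hx0 hbas hm hdiv hz hgen (S := fan)
    ⟨hfan.adm, hfan.full, hfan.cover⟩ hc0 (u := u) hlin (β := β) hδ) (Pool.Agent.U189.MG.mdl_of_mdlR hX') w hε

end Pool.Agent.Results.MP_a27c81_ag.ProductCoverScaling
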